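import Mathlib
import Pool.Agent.Lib.MP_2fec48_an.Final

/-!
# The `b`-Gaussian von Neumann algebras over an infinite-dimensional Hilbert space

For every realisation of the setting over an infinite-dimensional real Hilbert space `H` and every
`0 < b < 1`, the von Neumann algebra `Γ_b` generated by the operators
`Y_b f = √(1-b) G₀ f + √b G₁ f` is the von Neumann algebra generated by both families `G₀`, `G₁`.
In particular the algebras `Γ_b`, `0 < b < 1`, coincide, so they are isomorphic to one another.
-/

namespace Pool.Agent.Results.MP_2fec48_an.InfiniteDim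

open Pool.Agent.Lib.MP_2fec48_an

theorem result {H : Type*} [NormedAddCommGroup H] [InnerProductSpace ℝ H] [CompleteSpace H]
    (hH : ¬ FiniteDimensional ℝ H)
    {K : Type*} [NormedAddCommGroup K] [InnerProductSpace ℂ K] [CompleteSpace K]
    (R : Realisation H K) :
    (∀ b : ℝ, 0 < b → b < 1 → R.Gam b = R.All) ∧
      ∀ b b' : ℝ, 0 < b → b < 1 → 0 < b' → b' < 1 →
        Nonempty ((R.Gam b).toStarSubalgebra ≃⋆ₐ[ℂ] (R.Gam b').toStarSubalgebra) := by
  refine ⟨fun b hb0 hb1 => Realisation.Gam_eq_All hH hb0 hb1, fun b b' hb0 hb1 hb0' hb1' => ?_⟩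
  rw [Realisation.Gam_eq_All (R := R) hH hb0 hb1, Realisation.Gam_eq_All (R := R) hH hb0' hb1']
  exact ⟨StarAlgEquiv.refl ℂ _⟩

end Pool.Agent.Results.MP_2fec48_an.InfiniteDim
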